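import Pool.Agent.Helper9.Ends.Defs
import Pool.Agent.Helper61.KS.IBP
import Pool.Agent.Helper28.Ends.Pompeiu
import Pool.Agent.Helper59.Ends.Wind

/-! EN-2c: Cauchy's theorem, homology version. -/

set_option autoImplicit false

open Set Filter Metric Topology MeasureTheory
open scoped ContDiff ComplexConjugate Manifold
open Pool.Agent.Helper61.KS

namespace Pool.Agent.EN

namespace H60

theorem dzbar_congr {f g : ℂ → ℂ} {z : ℂ} (h : f =ᶠ[𝓝 z] g) : dzbar f z = dzbar g z := by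
  rw [dzbar, dzbar, h.fderiv_eq]

theorem dzbar_const (c : ℂ) (z : ℂ) : dzbar (fun _ => c) z = 0 := by
  simp [dzbar]

theorem dzbar_hol_mul {g v : ℂ → ℂ} {z : ℂ} (hg : DifferentiableAt ℂ g z)
    (hv : DifferentiableAt ℝ v z) : dzbar (fun z => g z * v z) z = g z * dzbar v z := by
  have hkd : HasDerivAt g (deriv g z) z := hg.hasDerivAt
  have hkr : HasFDerivAt g
      ((ContinuousLinearMap.toSpanSingleton ℂ (deriv g z)).restrictScalars ℝ) z :=
    hkd.hasFDerivAt.restrictScalars ℝ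
  have h := (hkr.mul hv.hasFDerivAt).fderiv
  have h' : fderiv ℝ (fun z => g z * v z) z = g z • fderiv ℝ v z +
      v z • (ContinuousLinearMap.toSpanSingleton ℂ (deriv g z)).restrictScalars ℝ := h
  rw [dzbar, dzbar, h']
  simp only [add_apply, smul_apply, smul_eq_mul,
    ContinuousLinearMap.coe_restrictScalars', ContinuousLinearMap.toSpanSingleton_apply]
  linear_combination (v z * deriv g z / 2) * Complex.I_mul_I

theorem dzbar_const_mul {v : ℂ → ℂ} {z : ℂ} (c : ℂ) (hv : DifferentiableAt ℝ v z) :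
    dzbar (fun z => c * v z) z = c * dzbar v z :=
  dzbar_hol_mul (differentiableAt_const c) hv

theorem continuous_dzbar {v : ℂ → ℂ} (hv : ContDiff ℝ 1 v) : Continuous (dzbar v) := by
  have h : ∀ e : ℂ, Continuous (fun z => fderiv ℝ v z e) := fun e =>
    (hv.continuous_fderiv (by norm_num)).clm_apply continuous_const
  exact ((h 1).add (continuous_const.mul (h Complex.I))).div_const 2

/-- a cutoff function -/
theorem exists_cutoff {D T : Set ℂ} (hD : IsOpen D) (hT : IsCompact T) (hTD : T ⊆ D) :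
    ∃ ρ : ℂ → ℂ, ContDiff ℝ 1 ρ ∧ HasCompactSupport ρ ∧ tsupport ρ ⊆ D ∧
      ∀ z ∈ T, ∀ᶠ w in 𝓝 z, ρ w = 1 := by
  obtain ⟨L, hL, hTL, hLD⟩ := exists_compact_between hT hD hTD
  obtain ⟨f, hf1, hf0, -⟩ := exists_contMDiffMap_one_nhds_of_subset_interior (n := 1)
    (𝓘(ℝ, ℂ)) hT.isClosed hTL
  have hsub : tsupport (fun z => ((f z : ℝ) : ℂ)) ⊆ L := by
    refine closure_minimal (fun z hz => ?_) hL.isClosed
    by_contra h
    exact hz (by simp [hf0 z h])
  refine ⟨fun z => ((f z : ℝ) : ℂ), ?_, ?_, hsub.trans hLD, ?_⟩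
  · exact Complex.ofRealCLM.contDiff.comp (contMDiff_iff_contDiff.1 f.contMDiff)
  · exact hL.of_isClosed_subset (isClosed_tsupport _) hsub
  · intro z hz
    have h1 := (eventually_nhdsSet_iff_forall.1 hf1) z hz
    filter_upwards [h1] with w hw
    simp [hw]

/-- Cauchy's theorem, with the Pompeiu formula and two facts on winding numbers as inputs -/
theorem cauchy_hom_aux {D : Set ℂ} (hD : IsOpen D) {g : ℂ → ℂ} (hg : DifferentiableOn ℂ g D)
    {γ : ℝ → ℂ} {x : ℂ} (h : FP D γ x x) (hw : ∀ w ∉ D, PI (fun z => (z - w)⁻¹) γ = 0)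
    (hP : ∀ φ : ℂ → ℂ, ContDiff ℝ 1 φ → HasCompactSupport φ → ∀ z,
      ∫ w, dzbar φ w / (z - w) = Real.pi * φ z)
    (hloc : ∀ w₀, (∀ t, γ t ≠ w₀) →
      ∀ᶠ w in 𝓝 w₀, PI (fun z => (z - w)⁻¹) γ = PI (fun z => (z - w₀)⁻¹) γ)
    (hfar : ∀ w : ℂ, (∀ t, ‖γ t‖ < ‖w‖) → PI (fun z => (z - w)⁻¹) γ = 0) :
    PI g γ = 0 := by
  set n : ℂ → ℂ := fun w => PI (fun z => (z - w)⁻¹) γ with hn
  set T : Set ℂ := range γ with hT
  have hγc := h.smooth.continuous
  have hTc : IsCompact T := by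
    have h1 : T ⊆ γ '' Icc (0 : ℝ) 1 := by
      rintro _ ⟨t, rfl⟩
      rcases le_total t 0 with ht | ht
      · exact ⟨0, ⟨le_rfl, zero_le_one⟩, by rw [h.left t ht, h.left 0 le_rfl]⟩
      · rcases le_total t 1 with ht' | ht'
        · exact ⟨t, ⟨ht, ht'⟩, rfl⟩
        · exact ⟨1, ⟨zero_le_one, le_rfl⟩, by rw [h.right t ht', h.right 1 le_rfl]⟩
    have h2 : T = γ '' Icc (0 : ℝ) 1 := Subset.antisymm h1 (image_subset_range _ _)
    rw [h2]
    exact isCompact_Icc.image hγc
  have hTD : T ⊆ D := by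
    rintro _ ⟨t, rfl⟩
    exact h.mem t
  obtain ⟨ρ, hρ, hρc, hρD, hρ1⟩ := exists_cutoff hD hTc hTD
  have hdρ : Continuous (dzbar ρ) := continuous_dzbar hρ
  have hdρ0 : ∀ w ∈ T, ∀ᶠ y in 𝓝 w, dzbar ρ y = 0 := by
    intro w hwT
    filter_upwards [(hρ1 w hwT).eventually_nhds] with y hy
    rw [dzbar_congr (g := fun _ => 1) hy, dzbar_const]
  have hdρL : ∀ w ∉ tsupport ρ, dzbar ρ w = 0 := by
    intro w hwL
    have h1 : ρ =ᶠ[𝓝 w] fun _ => 0 := notMem_tsupport_iff_eventuallyEq.1 hwL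
    rw [dzbar_congr h1, dzbar_const]
  -- the function `φ = g ρ`
  set φ : ℂ → ℂ := fun z => g z * ρ z with hφ
  have hg1 : ContDiffOn ℝ 1 g D := (hg.contDiffOn hD).restrict_scalars ℝ
  have hφ1 : ContDiff ℝ 1 φ := contDiff_mul_supp hD hg1 hρ hρD
  have hφc : HasCompactSupport φ := hρc.mul_left
  have hdφ : ∀ w, dzbar φ w = g w * dzbar ρ w := by
    intro w
    by_cases hwD : w ∈ D
    · exact dzbar_hol_mul (hg.differentiableAt (hD.mem_nhds hwD))
        (hρ.differentiable (by norm_num) w)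
    · have hwL : w ∉ tsupport ρ := fun h' => hwD (hρD h')
      have h1 : ρ =ᶠ[𝓝 w] fun _ => 0 := notMem_tsupport_iff_eventuallyEq.1 hwL
      have h2 : φ =ᶠ[𝓝 w] fun _ => 0 := by
        filter_upwards [h1] with y hy
        simp [hφ, hy]
      rw [dzbar_congr h2, dzbar_const, hdρL w hwL, mul_zero]
  have hdφc : Continuous (dzbar φ) := continuous_dzbar hφ1
  have hdφ0 : ∀ w ∈ T, ∀ᶠ y in 𝓝 w, dzbar φ y = 0 := by
    intro w hwT
    filter_upwards [hdρ0 w hwT] with y hy
    rw [hdφ, hy, mul_zero]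
  -- the integrand
  set F : ℝ → ℂ → ℂ := fun t w => dzbar φ w / (γ t - w) * deriv γ t with hF
  have hdγ : Continuous (deriv γ) := h.smooth.continuous_deriv (by norm_num)
  have hFc : Continuous (fun p : ℝ × ℂ => F p.1 p.2) := by
    rw [continuous_iff_continuousAt]
    rintro ⟨t₀, w₀⟩
    by_cases hw₀ : w₀ = γ t₀
    · have h1 : ∀ᶠ y in 𝓝 w₀, dzbar φ y = 0 := hdφ0 w₀ (by rw [hw₀]; exact mem_range_self _)
      have h2 : (fun p : ℝ × ℂ => F p.1 p.2) =ᶠ[𝓝 (t₀, w₀)] fun _ => 0 := by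
        have h3 : ∀ᶠ p : ℝ × ℂ in 𝓝 (t₀, w₀), dzbar φ p.2 = 0 :=
          (continuous_snd.tendsto (t₀, w₀)).eventually h1
        filter_upwards [h3] with p hp
        simp [hF, hp]
      exact continuousAt_const.congr h2.symm
    · have h1 : γ t₀ - w₀ ≠ 0 := fun h' => hw₀ (sub_eq_zero.1 h').symm
      have c1 : ContinuousAt (fun p : ℝ × ℂ => dzbar φ p.2) (t₀, w₀) :=
        (hdφc.comp continuous_snd).continuousAt
      have c2 : ContinuousAt (fun p : ℝ × ℂ => γ p.1 - p.2) (t₀, w₀) :=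
        ((hγc.comp continuous_fst).sub continuous_snd).continuousAt
      have c3 : ContinuousAt (fun p : ℝ × ℂ => deriv γ p.1) (t₀, w₀) :=
        (hdγ.comp continuous_fst).continuousAt
      exact (c1.div c2 h1).mul c3
  have hFs : HasCompactSupport (fun p : ℝ × ℂ => F p.1 p.2) := by
    refine HasCompactSupport.intro ((isCompact_Icc (a := (0 : ℝ)) (b := 1)).prod hρc.isCompact)
      fun p hp => ?_
    rw [mem_prod, not_and_or] at hp
    rcases hp with hp | hp
    · simp [hF, h.d_out hp]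
    · simp [hF, hdφ, hdρL _ hp]
  have hFi : Integrable (fun p : ℝ × ℂ => F p.1 p.2) (volume.prod volume) := by
    have := hFc.integrable_of_hasCompactSupport (μ := (volume : Measure (ℝ × ℂ))) hFs
    exact this
  have hswap : ∫ t, ∫ w, F t w = ∫ w, ∫ t, F t w := integral_integral_swap hFi
  have hleft : ∫ t, ∫ w, F t w = Real.pi * PI g γ := by
    rw [PI, ← integral_const_mul]
    congr 1
    funext t
    have h1 : ∫ w, F t w = (∫ w, dzbar φ w / (γ t - w)) * deriv γ t := by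
      rw [← integral_mul_const]
    have h2 : φ (γ t) = g (γ t) := by
      have := (hρ1 (γ t) (mem_range_self _)).self_of_nhds
      simp [hφ, this]
    rw [h1, hP φ hφ1 hφc, h2]
    ring
  have hright : ∫ w, ∫ t, F t w = ∫ w, g w * (n w * dzbar ρ w) := by
    congr 1
    funext w
    have h1 : ∫ t, F t w = dzbar φ w * n w := by
      have e : n w = ∫ t, (γ t - w)⁻¹ * deriv γ t := rfl
      rw [e, ← integral_const_mul]
      congr 1
      funext t
      simp only [hF]
      ring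
    rw [h1, hdφ]
    ring
  -- the function `V = n (ρ - 1)`
  set V : ℂ → ℂ := fun w => n w * (ρ w - 1) with hV
  set C : Set ℂ := {w | n w ≠ 0} ∪ T with hC
  have hCcl : IsClosed C := by
    rw [← isOpen_compl_iff, isOpen_iff_mem_nhds]
    intro w hw'
    rw [hC, mem_compl_iff, mem_union, not_or] at hw'
    obtain ⟨h1, h2⟩ := hw'
    have h1' : n w = 0 := by simpa using h1
    have h3 : ∀ᶠ y in 𝓝 w, y ∉ T := hTc.isClosed.isOpen_compl.mem_nhds h2
    filter_upwards [hloc w (fun t ht => h2 ⟨t, ht⟩), h3] with y hy hyT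
    rw [hC, mem_compl_iff, mem_union, not_or]
    refine ⟨?_, hyT⟩
    have : n y = 0 := by
      have h4 : n y = n w := hy
      rw [h4, h1']
    simp [this]
  obtain ⟨M, hM⟩ := hTc.isBounded.exists_norm_le
  have hCb : C ⊆ closedBall 0 M := by
    intro w hwC
    rw [mem_closedBall_zero_iff]
    by_contra hcon
    rcases hwC with h1 | h1
    · exact h1 (hfar w fun t => (hM _ (mem_range_self t)).trans_lt (not_le.1 hcon))
    · exact hcon (hM _ h1)
  have hCc : IsCompact C := (isCompact_closedBall (0 : ℂ) M).of_isClosed_subset hCcl hCb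
  have hCD : C ⊆ D := by
    rintro w (h1 | h1)
    · by_contra hcon
      exact h1 (hw w hcon)
    · exact hTD h1
  have hVs : tsupport V ⊆ C := by
    refine closure_minimal (fun w hwV => ?_) hCcl
    left
    intro h1
    exact hwV (by simp [hV, h1])
  have hVloc : ∀ w ∉ T, V =ᶠ[𝓝 w] fun y => n w * (ρ y - 1) := by
    intro w hwT
    filter_upwards [hloc w (fun t ht => hwT ⟨t, ht⟩)] with y hy
    have h4 : n y = n w := hy
    simp only [hV, h4]
  have hVT : ∀ w ∈ T, V =ᶠ[𝓝 w] fun _ => 0 := by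
    intro w hwT
    filter_upwards [hρ1 w hwT] with y hy
    simp [hV, hy]
  have hV1 : ContDiff ℝ 1 V := by
    rw [contDiff_iff_contDiffAt]
    intro w
    by_cases hwT : w ∈ T
    · exact contDiffAt_const.congr_of_eventuallyEq (hVT w hwT)
    · have h1 : ContDiff ℝ 1 (fun y => n w * (ρ y - 1)) :=
        contDiff_const.mul (hρ.sub contDiff_const)
      exact h1.contDiffAt.congr_of_eventuallyEq (hVloc w hwT)
  have hdV : ∀ w, dzbar V w = n w * dzbar ρ w := by
    intro w
    by_cases hwT : w ∈ T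
    · rw [dzbar_congr (hVT w hwT), dzbar_const, (hdρ0 w hwT).self_of_nhds, mul_zero]
    · have h1 : DifferentiableAt ℝ (fun y => ρ y - 1) w :=
        (hρ.differentiable (by norm_num) w).sub_const 1
      rw [dzbar_congr (hVloc w hwT), dzbar_const_mul _ h1]
      congr 1
      rw [dzbar, dzbar, fderiv_sub_const]
  have h0 := (holo_ibp hD hg hV1 (hCc.of_isClosed_subset (isClosed_tsupport _) hVs)
    (hVs.trans hCD)).2
  have h1 : ∫ w, g w * (n w * dzbar ρ w) = 0 := by
    have h2 : (fun w => g w * (n w * dzbar ρ w)) =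
        fun w => 2⁻¹ * (g w * (fderiv ℝ V w 1 + Complex.I * fderiv ℝ V w Complex.I)) := by
      funext w
      rw [← hdV w, dzbar]
      ring
    rw [h2, integral_const_mul, h0, mul_zero]
  rw [hleft, hright, h1] at hswap
  have hpi : (Real.pi : ℂ) ≠ 0 := by exact_mod_cast Real.pi_ne_zero
  exact (mul_eq_zero.1 hswap).resolve_left hpi

end H60

/-- EN-2c: Cauchy's theorem, homology version -/
theorem cauchy_hom {D : Set ℂ} (hD : IsOpen D) {g : ℂ → ℂ} (hg : DifferentiableOn ℂ g D)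
    {γ : ℝ → ℂ} {x : ℂ} (h : FP D γ x x) (hw : ∀ w ∉ D, PI (fun z => (z - w)⁻¹) γ = 0) :
    PI g γ = 0 :=
  H60.cauchy_hom_aux hD hg h hw (fun _ hφ hc z => pompeiu hφ hc z)
    (fun _ hw => wind_locConst h hw) fun _ hw => wind_far h hw

end Pool.Agent.EN
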