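import Pool.Agent.Helper9.Ends.Defs

/-! EN-8: a barrier for the boundary behaviour of a conformal map, and a bound for the derivative. -/

set_option autoImplicit false

open Set Filter Metric Topology MeasureTheory
open scoped ContDiff ComplexConjugate

namespace Pool.Agent.EN

/-- the nearest point is a frontier point -/
theorem exists_frontier {K : Set ℂ} (hK : IsClosed K) (hne : K.Nonempty) {z : ℂ} (hz : z ∉ K) :
    ∃ p ∈ frontier K, infDist z K = dist z p := by
  obtain ⟨p, hp, hd⟩ := hK.exists_infDist_eq_dist hne z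
  refine ⟨p, ?_, hd⟩
  rw [hK.frontier_eq]
  refine ⟨hp, fun hi => ?_⟩
  obtain ⟨δ, hδ, hb⟩ := Metric.isOpen_iff.1 isOpen_interior p hi
  have hb' : ball p δ ⊆ K := hb.trans interior_subset
  have hzp : δ ≤ dist z p := by
    by_contra h
    exact hz (hb' (by simpa using h))
  have hd0 : 0 < dist z p := hδ.trans_le hzp
  set s : ℝ := δ / (2 * dist z p) with hs
  have hs0 : 0 < s := by positivity
  have hs1 : s < 1 := by
    rw [hs, div_lt_one (by positivity)]
    linarith
  have hx : p + (s : ℂ) * (z - p) ∈ K := by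
    apply hb'
    rw [mem_ball, dist_eq_norm]
    have : p + (s : ℂ) * (z - p) - p = (s : ℂ) * (z - p) := by ring
    rw [this, norm_mul, Complex.norm_real, Real.norm_eq_abs, abs_of_pos hs0, ← dist_eq_norm, hs]
    field_simp
    linarith
  have h1 := infDist_le_dist_of_mem (x := z) hx
  rw [hd] at h1
  have h2 : dist z (p + (s : ℂ) * (z - p)) = (1 - s) * dist z p := by
    rw [dist_eq_norm, dist_eq_norm]
    have : z - (p + (s : ℂ) * (z - p)) = ((1 - s : ℝ) : ℂ) * (z - p) := by push_cast; ring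
    rw [this, norm_mul, Complex.norm_real, Real.norm_eq_abs, abs_of_pos (by linarith)]
  rw [h2] at h1
  nlinarith

/-- the barrier estimate -/
theorem barrier {K : Set ℂ} (hK : IsClosed K) {v : ℂ → ℂ} (hv : DifferentiableOn ℂ v Kᶜ)
    (hv1 : ∀ z ∈ Kᶜ, ‖v z‖ < 1) (hcl : ∀ ρ : ℝ, ρ < 1 → IsClosed {z | z ∈ Kᶜ ∧ ‖v z‖ ≤ ρ})
    {r c : ℝ} (hr : 0 < r) (hc : 0 < c)
    {q : ℂ} (hq : ball q r ⊆ K)
    (hlow : ∀ z ∈ Kᶜ, infDist z K ≤ 2 * r → c ≤ ‖v z‖) {m : ℕ} (hm : c⁻¹ ≤ 2 ^ m) {z : ℂ}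
    (hz : z ∈ Kᶜ) (hzq : dist z q ≤ 2 * r) : (r / dist z q) ^ m ≤ ‖v z‖ := by
  have hqK : q ∈ K := hq (mem_ball_self hr)
  have hge : ∀ x ∈ Kᶜ, r ≤ dist x q := by
    intro x hx
    by_contra h
    exact hx (hq (by simpa using h))
  have hinf : ∀ x, dist x q ≤ 2 * r → infDist x K ≤ 2 * r := fun x hx =>
    (infDist_le_dist_of_mem hqK).trans hx
  have hne0 : ∀ x ∈ Kᶜ, dist x q ≤ 2 * r → v x ≠ 0 := by
    intro x hx hxq h0
    have := hlow x hx (hinf x hxq)
    rw [h0, norm_zero] at this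
    linarith
  -- values on the big circle
  have hbig : ∀ x ∈ Kᶜ, dist x q = 2 * r → (r / dist x q) ^ m ≤ ‖v x‖ := by
    intro x hx hxq
    refine le_trans ?_ (hlow x hx (hinf x hxq.le))
    have h1 : r / dist x q = 2⁻¹ := by rw [hxq]; field_simp
    rw [h1, inv_pow]
    exact inv_le_of_inv_le₀ hc hm
  rcases hzq.lt_or_eq with hlt | heq
  · -- the maximum principle
    have key : ∀ ε : ℝ, 0 < ε → ε < 1 → ‖v z‖ < 1 - ε →
        (r / dist z q) ^ m ≤ (1 - ε)⁻¹ * ‖v z‖ := by
      intro ε hε hε1 hvz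
      set A : Set ℂ := {x | x ∈ Kᶜ ∧ ‖v x‖ < 1 - ε} ∩ ball q (2 * r) with hA
      have hAo : IsOpen A := by
        have h1 : IsOpen {x | x ∈ Kᶜ ∧ ‖v x‖ < 1 - ε} := by
          have := hv.continuousOn.norm.isOpen_inter_preimage hK.isOpen_compl
            (isOpen_Iio (a := 1 - ε))
          exact this
        exact h1.inter isOpen_ball
      have hAb : Bornology.IsBounded A := isBounded_ball.subset inter_subset_right
      have hAc : closure A ⊆ {x | x ∈ Kᶜ ∧ ‖v x‖ ≤ 1 - ε} ∩ closedBall q (2 * r) := by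
        refine closure_minimal ?_ ((hcl (1 - ε) (by linarith)).inter isClosed_closedBall)
        intro x hx
        exact ⟨⟨hx.1.1, hx.1.2.le⟩, ball_subset_closedBall hx.2⟩
      have hd : DiffContOnCl ℂ (fun x => (v x)⁻¹ * ((r : ℂ) / (x - q)) ^ m) A := by
        apply DifferentiableOn.diffContOnCl
        intro x hx
        have hx' := hAc hx
        have hxK : x ∈ Kᶜ := hx'.1.1
        have hxq : dist x q ≤ 2 * r := hx'.2
        have h1 : DifferentiableAt ℂ v x :=
          hv.differentiableAt (hK.isOpen_compl.mem_nhds hxK)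
        have h2 : x - q ≠ 0 := by
          intro h
          have := hge x hxK
          rw [dist_eq_norm, h, norm_zero] at this
          linarith
        have h3 : DifferentiableAt ℂ (fun x => (v x)⁻¹ * ((r : ℂ) / (x - q)) ^ m) x := by
          have h4 : DifferentiableAt ℂ (fun x : ℂ => (r : ℂ) / (x - q)) x := by
            have h5 : DifferentiableAt ℂ (fun x : ℂ => x - q) x := differentiableAt_id.sub_const q
            exact (differentiableAt_const _).fun_div h5 h2
          exact (h1.fun_inv (hne0 x hxK hxq)).fun_mul (h4.fun_pow m)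
        exact h3.differentiableWithinAt
      have hb : ∀ x ∈ frontier A, ‖(v x)⁻¹ * ((r : ℂ) / (x - q)) ^ m‖ ≤ (1 - ε)⁻¹ := by
        intro x hx
        rw [frontier, hAo.interior_eq] at hx
        have hx' := hAc hx.1
        have hxK : x ∈ Kᶜ := hx'.1.1
        have hxq : dist x q ≤ 2 * r := hx'.2
        have hv0 : 0 < ‖v x‖ := norm_pos_iff.2 (hne0 x hxK hxq)
        have hdq : 0 < dist x q := hr.trans_le (hge x hxK)
        have e : ‖(v x)⁻¹ * ((r : ℂ) / (x - q)) ^ m‖ = ‖v x‖⁻¹ * (r / dist x q) ^ m := by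
          rw [norm_mul, norm_inv, norm_pow, norm_div, Complex.norm_real, Real.norm_eq_abs,
            abs_of_pos hr, dist_eq_norm]
        rw [e]
        have hor : ‖v x‖ = 1 - ε ∨ dist x q = 2 * r := by
          by_contra hcon
          push Not at hcon
          exact hx.2 ⟨⟨hxK, lt_of_le_of_ne hx'.1.2 hcon.1⟩, lt_of_le_of_ne hxq hcon.2⟩
        rcases hor with h | h
        · rw [h]
          have h1 : (r / dist x q) ^ m ≤ 1 :=
            pow_le_one₀ (by positivity) ((div_le_one hdq).2 (hge x hxK))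
          have h2 : 0 < (1 - ε)⁻¹ := inv_pos.2 (by linarith)
          nlinarith
        · have h1 := hbig x hxK h
          have h2 : ‖v x‖⁻¹ * (r / dist x q) ^ m ≤ 1 := by
            rw [inv_mul_le_iff₀ hv0]
            linarith
          refine h2.trans ?_
          rw [one_le_inv₀ (by linarith)]
          linarith
      have hzA : z ∈ A := ⟨⟨hz, hvz⟩, hlt⟩
      have h := Complex.norm_le_of_forall_mem_frontier_norm_le hAb hd hb (subset_closure hzA)
      have hv0 : 0 < ‖v z‖ := norm_pos_iff.2 (hne0 z hz hzq)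
      have e : ‖(v z)⁻¹ * ((r : ℂ) / (z - q)) ^ m‖ = ‖v z‖⁻¹ * (r / dist z q) ^ m := by
        rw [norm_mul, norm_inv, norm_pow, norm_div, Complex.norm_real, Real.norm_eq_abs,
          abs_of_pos hr, dist_eq_norm]
      rw [e, inv_mul_le_iff₀ hv0] at h
      linarith [mul_comm ‖v z‖ (1 - ε)⁻¹]
    have hlim : Tendsto (fun ε : ℝ => (1 - ε)⁻¹ * ‖v z‖) (𝓝[>] 0) (𝓝 ‖v z‖) := by
      have h1 : ContinuousAt (fun ε : ℝ => (1 - ε)⁻¹ * ‖v z‖) 0 := by
        have : (1 : ℝ) - 0 ≠ 0 := by norm_num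
        fun_prop (disch := assumption)
      have h2 := h1.tendsto
      simp only [sub_zero, inv_one, one_mul] at h2
      exact h2.mono_left nhdsWithin_le_nhds
    refine ge_of_tendsto hlim ?_
    have h1 : 0 < 1 - ‖v z‖ := by linarith [hv1 z hz]
    have h2 : Ioo (0 : ℝ) (min 1 (1 - ‖v z‖)) ∈ 𝓝[>] (0 : ℝ) :=
      Ioo_mem_nhdsGT (lt_min one_pos h1)
    filter_upwards [h2] with ε hε
    have h3 := lt_min_iff.1 hε.2
    exact key ε hε.1 h3.1 (by linarith)
  · exact hbig z hz heq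

/-- Schwarz-Pick at one point -/
theorem schwarz_pick {v : ℂ → ℂ} {z : ℂ} {d : ℝ} (hd : 0 < d)
    (hv : DifferentiableOn ℂ v (ball z d)) (hv1 : ∀ x ∈ ball z d, ‖v x‖ < 1) :
    ‖deriv v z‖ ≤ (1 - ‖v z‖ ^ 2) / d := by
  set a := v z with ha
  have haz : ‖a‖ < 1 := hv1 z (mem_ball_self hd)
  have hden : ∀ x : ℂ, ‖x‖ < 1 → 1 - conj a * x ≠ 0 := by
    intro x hx h
    have h1 : conj a * x = 1 := (sub_eq_zero.1 h).symm
    have h2 := congrArg norm h1
    rw [norm_mul, RCLike.norm_conj, norm_one] at h2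
    have := norm_nonneg a
    have := norm_nonneg x
    nlinarith
  set g : ℂ → ℂ := fun x => (v x - a) / (1 - conj a * v x) with hg
  have hgd : DifferentiableOn ℂ g (ball z d) :=
    (hv.sub_const _).div ((differentiableOn_const _).sub ((differentiableOn_const _).mul hv))
      fun x hx => hden _ (hv1 x hx)
  have hg0 : g z = 0 := by simp [hg, ha]
  have hgm : MapsTo g (ball z d) (ball (g z) 1) := by
    intro x hx
    rw [hg0, mem_ball_zero_iff, hg]
    have hx1 := hv1 x hx
    rw [norm_div, div_lt_one (norm_pos_iff.2 (hden _ hx1))]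
    have h1 : ‖v x - a‖ ^ 2 < ‖1 - conj a * v x‖ ^ 2 := by
      have e : ‖1 - conj a * v x‖ ^ 2 - ‖v x - a‖ ^ 2 = (1 - ‖a‖ ^ 2) * (1 - ‖v x‖ ^ 2) := by
        rw [← Complex.normSq_eq_norm_sq, ← Complex.normSq_eq_norm_sq,
          ← Complex.normSq_eq_norm_sq, ← Complex.normSq_eq_norm_sq]
        simp only [Complex.normSq_apply, Complex.sub_re, Complex.sub_im, Complex.mul_re,
          Complex.mul_im, Complex.conj_re, Complex.conj_im, Complex.one_re, Complex.one_im]
        ring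
      have h2 : 0 < (1 - ‖a‖ ^ 2) * (1 - ‖v x‖ ^ 2) := by
        have := norm_nonneg a
        have := norm_nonneg (v x)
        apply mul_pos <;> nlinarith
      linarith
    exact lt_of_pow_lt_pow_left₀ 2 (norm_nonneg _) h1
  have h1 := Complex.norm_deriv_le_div_of_mapsTo_ball hgd
    (fun x hx => ball_subset_closedBall (hgm hx)) hd
  have hvz : HasDerivAt v (deriv v z) z :=
    (hv.differentiableAt (isOpen_ball.mem_nhds (mem_ball_self hd))).hasDerivAt
  have h2 : HasDerivAt g (deriv v z / (1 - conj a * a)) z := by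
    have h3 := (hvz.sub_const a).fun_div ((hvz.const_mul (conj a)).const_sub 1) (hden _ haz)
    have e : (deriv v z * (1 - conj a * v z) - (v z - a) * -(conj a * deriv v z)) /
        (1 - conj a * v z) ^ 2 = deriv v z / (1 - conj a * a) := by
      rw [← ha, sub_self, zero_mul, sub_zero, pow_two, mul_div_mul_right _ _ (hden a haz)]
    rw [e] at h3
    exact h3
  have e1 : (1 : ℂ) - conj a * a = ((1 - ‖a‖ ^ 2 : ℝ) : ℂ) := by
    rw [← Complex.normSq_eq_conj_mul_self, Complex.normSq_eq_norm_sq]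
    push_cast
    ring
  have h3 : 0 < 1 - ‖a‖ ^ 2 := by
    have := norm_nonneg a
    nlinarith
  rw [h2.deriv, e1, norm_div, Complex.norm_real, Real.norm_eq_abs, abs_of_pos h3,
    div_le_iff₀ h3] at h1
  calc ‖deriv v z‖ ≤ 1 / d * (1 - ‖a‖ ^ 2) := h1
    _ = (1 - ‖a‖ ^ 2) / d := by ring

theorem deriv_bound {K : Set ℂ} (hK : IsClosed K) {v : ℂ → ℂ} (hv : DifferentiableOn ℂ v Kᶜ)
    (hv1 : ∀ z ∈ Kᶜ, ‖v z‖ < 1) (hcl : ∀ ρ : ℝ, ρ < 1 → IsClosed {z | z ∈ Kᶜ ∧ ‖v z‖ ≤ ρ})
    {r c : ℝ} (hr : 0 < r) (hc : 0 < c) (hne : K.Nonempty)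
    (hball : ∀ p ∈ frontier K, ∃ q, dist q p ≤ r ∧ ball q r ⊆ K)
    (hlow : ∀ z ∈ Kᶜ, infDist z K ≤ 2 * r → c ≤ ‖v z‖) :
    ∃ C : ℝ, ∀ z ∈ Kᶜ, infDist z K ≤ r → ‖deriv v z‖ ≤ C := by
  obtain ⟨m, hm⟩ := pow_unbounded_of_one_lt c⁻¹ (one_lt_two : (1 : ℝ) < 2)
  refine ⟨2 * m / r, fun z hz hzr => ?_⟩
  obtain ⟨p, hp, hpd⟩ := exists_frontier hK hne hz
  obtain ⟨q, hqp, hq⟩ := hball p hp
  have hd : 0 < infDist z K := (hK.notMem_iff_infDist_pos hne).1 hz
  set d := infDist z K with hdd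
  have hzq : dist z q ≤ r + d := by
    calc dist z q ≤ dist z p + dist p q := dist_triangle _ _ _
      _ ≤ r + d := by rw [← hpd, dist_comm p q]; linarith
  have h1 := barrier hK hv hv1 hcl hr hc hq hlow hm.le hz (by linarith)
  have hzq0 : 0 < dist z q := by
    by_contra h
    have h2 : z = q := by
      rw [← dist_eq_zero]
      exact le_antisymm (not_lt.1 h) dist_nonneg
    exact hz (hq (by rw [h2]; exact mem_ball_self hr))
  have h2 : 1 - m * (d / r) ≤ ‖v z‖ := by
    refine le_trans ?_ h1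
    have h3 : 1 - d / r ≤ r / dist z q := by
      have h4 : r / (r + d) ≤ r / dist z q := div_le_div_of_nonneg_left hr.le hzq0 hzq
      refine le_trans ?_ h4
      rw [le_div_iff₀ (by positivity)]
      have h5 : (1 - d / r) * (r + d) = r - d ^ 2 / r := by field_simp; ring
      rw [h5]
      have : 0 ≤ d ^ 2 / r := by positivity
      linarith
    have h6 : 0 ≤ 1 - d / r := by
      rw [sub_nonneg, div_le_one hr]
      exact hzr
    have h7 := one_add_mul_le_pow (a := -(d / r)) (by linarith) m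
    calc 1 - m * (d / r) = 1 + m * (-(d / r)) := by ring
      _ ≤ (1 + -(d / r)) ^ m := h7
      _ ≤ (r / dist z q) ^ m := by
        apply pow_le_pow_left₀ (by linarith)
        linarith
  have hsub : ball z d ⊆ Kᶜ := by
    intro x hx hxK
    have := infDist_le_dist_of_mem (x := z) hxK
    rw [mem_ball, dist_comm] at hx
    linarith
  have h3 := schwarz_pick hd (hv.mono hsub) fun x hx => hv1 x (hsub hx)
  refine h3.trans ?_
  have hvz := hv1 z hz
  have hv0 := norm_nonneg (v z)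
  rw [div_le_iff₀ hd]
  have h4 : 1 - ‖v z‖ ^ 2 ≤ 2 * (m * (d / r)) := by nlinarith
  calc 1 - ‖v z‖ ^ 2 ≤ 2 * (m * (d / r)) := h4
    _ = 2 * m / r * d := by ring

end Pool.Agent.EN
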